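import Pool.Agent.L5helper98.ID.Defs

set_option autoImplicit false

open MeasureTheory Set

namespace Pool.Agent.L5helper21.ID

open Pool.Agent.L5helper98.ID

theorem tri_zero {a t x : ℝ} (ha : a = |x|) (ht : 0 < t) (hta : t ≤ a) : tri t x / t = 0 := by
  have h1 : 1 ≤ |x| / t := by rw [le_div_iff₀ ht, one_mul, ← ha]; exact hta
  have : tri t x = 0 := by
    unfold tri
    exact max_eq_right (by linarith)
  rw [this, zero_div]

theorem tri_big {a t x : ℝ} (ha : a = |x|) (ht : 0 < t) (hta : a ≤ t) :
    tri t x / t = (1 - a / t) / t := by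
  have h1 : |x| / t ≤ 1 := by rw [div_le_iff₀ ht, one_mul, ← ha]; exact hta
  have : tri t x = 1 - a / t := by
    unfold tri
    rw [ha]
    exact max_eq_left (by linarith)
  rw [this]

theorem MIX_holds : St_MIX := by
  intro x hx
  obtain ⟨a, ha⟩ : ∃ a, a = |x| := ⟨_, rfl⟩
  have ha0 : 0 < a := by rw [ha]; exact abs_pos.2 hx
  rcases le_or_gt 1 a with h1 | h1
  · have hz : EqOn (fun t => tri t x / t) (fun _ => (0 : ℝ)) (Ioc 0 1) := fun t ht =>
      tri_zero ha ht.1 (ht.2.trans h1)
    refine ⟨(integrableOn_zero).congr_fun (fun t ht => (hz ht).symm) measurableSet_Ioc, ?_⟩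
    rw [setIntegral_congr_fun measurableSet_Ioc hz, integral_zero, add_zero]
    have h2 : tri 1 x = 0 := by
      unfold tri
      rw [← ha]
      exact max_eq_right (by rw [div_one]; linarith)
    rw [h2]
    unfold Pool.Agent.L5helper98.ID.lp
    rw [← ha]
    apply max_eq_right
    apply Real.log_nonpos (by positivity)
    rw [div_le_one ha0]
    exact h1
  · have hu : Ioc (0 : ℝ) 1 = Ioc 0 a ∪ Ioc a 1 := (Ioc_union_Ioc_eq_Ioc ha0.le h1.le).symm
    have hz : EqOn (fun t => tri t x / t) (fun _ => (0 : ℝ)) (Ioc 0 a) := fun t ht =>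
      tri_zero ha ht.1 ht.2
    have hF : EqOn (fun t => tri t x / t) (fun t => (1 - a / t) / t) (Ioc a 1) := fun t ht =>
      tri_big ha (ha0.trans ht.1) ht.1.le
    have hcont : ContinuousOn (fun t : ℝ => (1 - a / t) / t) (Icc a 1) := by
      intro t ht
      have ht0 : t ≠ 0 := (ha0.trans_le ht.1).ne'
      apply ContinuousAt.continuousWithinAt
      exact (continuousAt_const.sub (continuousAt_const.div continuousAt_id ht0)).div
        continuousAt_id ht0
    have hi1 : IntegrableOn (fun t => tri t x / t) (Ioc 0 a) :=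
      (integrableOn_zero).congr_fun (fun t ht => (hz ht).symm) measurableSet_Ioc
    have hi2 : IntegrableOn (fun t => tri t x / t) (Ioc a 1) :=
      ((hcont.integrableOn_compact isCompact_Icc).mono_set Ioc_subset_Icc_self).congr_fun
        (fun t ht => (hF ht).symm) measurableSet_Ioc
    refine ⟨by rw [hu]; exact hi1.union hi2, ?_⟩
    rw [hu, setIntegral_union (Ioc_disjoint_Ioc_of_le le_rfl) measurableSet_Ioc hi1 hi2,
      setIntegral_congr_fun measurableSet_Ioc hz, setIntegral_congr_fun measurableSet_Ioc hF,
      integral_zero, zero_add, ← intervalIntegral.integral_of_le h1.le]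
    have hder : ∀ t ∈ uIcc a 1, HasDerivAt (fun t : ℝ => Real.log t + a / t)
        ((1 - a / t) / t) t := by
      intro t ht
      rw [uIcc_of_le h1.le] at ht
      have ht0 : t ≠ 0 := (ha0.trans_le ht.1).ne'
      have h3 := (Real.hasDerivAt_log ht0).add ((hasDerivAt_inv ht0).const_mul a)
      have h4 : (fun t : ℝ => Real.log t + a / t) = (Real.log + fun t => a * t⁻¹) := by
        funext t; simp [div_eq_mul_inv]
      rw [h4]
      have h6 : (1 - a / t) / t = t⁻¹ + a * -(t ^ 2)⁻¹ := by
        field_simp
        ring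
      rw [h6]
      exact h3
    have hint : IntervalIntegrable (fun t : ℝ => (1 - a / t) / t) volume a 1 := by
      apply ContinuousOn.intervalIntegrable
      rw [uIcc_of_le h1.le]
      exact hcont
    rw [intervalIntegral.integral_eq_sub_of_hasDerivAt hder hint, Real.log_one, div_one,
      div_self ha0.ne']
    have h2 : tri 1 x = 1 - a := by
      unfold tri
      rw [← ha, div_one]
      exact max_eq_left (by linarith)
    have h5 : Pool.Agent.L5helper98.ID.lp x = - Real.log a := by
      unfold Pool.Agent.L5helper98.ID.lp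
      rw [← ha, one_div, Real.log_inv]
      apply max_eq_left
      have := Real.log_neg ha0 h1
      linarith
    rw [h2, h5]
    ring

end Pool.Agent.L5helper21.ID
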